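import Pool.Agent.Clk.Final
import Pool.Agent.Clk.SPLIT
import Pool.Agent.Clk.GLUE
import Pool.Agent.Clk.DEC
import Pool.Agent.Clk.SND
import Pool.Agent.Clk.ISO
import Pool.Agent.Clk.LINK
import Pool.Agent.Clk.CYK
import Pool.Agent.Clk.PATPT
import Pool.Agent.Clk.ALG
import Pool.Agent.Clk.DECODE
import Pool.Agent.Clk.COL
import Pool.Agent.Clk.NP
import Pool.Agent.Clk.TWO
import Pool.Agent.Clk.Set
import Pool.Agent.Clk.TWICE
import Pool.Agent.Clk.VC
import Pool.Agent.Clk.PRINT

set_option autoImplicit false

/-!
# The complexity of Clickomania under bounds on rows, columns, colours and copies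
-/

namespace Pool.Agent.Results.MP_b05ada_lc.Classification

open Pool.Agent.Clk
open Pool.Agent.CookLevin (InNP NPHard)

/-- CLEAR, the problem to decide whether a Clickomania board can be cleared, is in P on the boards
with at most `h` rows and at most `c` colours, and in P on the boards with at most `m` tiles of the
same colour and at most `h` rows, for all values of the bounds; on the boards with at most `m` tiles
of the same colour and at most `w` columns it is in P if `m ≤ 1` or `w ≤ 1`, and NP-complete if
`2 ≤ m` and `2 ≤ w`. -/
theorem result :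
    (∀ h c : ℕ, InP (clear (rowsColours h c))) ∧
    (∀ m h : ℕ, InP (clear (copiesRows m h))) ∧
    (∀ m w : ℕ, m ≤ 1 ∨ w ≤ 1 → InP (clear (copiesColumns m w))) ∧
    (∀ m w : ℕ, 2 ≤ m → 2 ≤ w →
      InNP (clear (copiesColumns m w)) ∧ NPHard (clear (copiesColumns m w))) :=
  classification
    { decode := tDECODE
      alg := tALG (tDEC tSPLIT) (tSND tGLUE) tISO tLINK tCYK tPATPT
      col := tCOL
      np := tNP tDECODE
      two := tTWO
      set := tSET
      twice := tTWICE
      vc := tVC
      print := tPRINT }

end Pool.Agent.Results.MP_b05ada_lc.Classification
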